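import Pool.Agent.helper53.MF9.Split

set_option autoImplicit false

/-!
# MP_141f81, Section 9: the multiplication `L : U → M` is well defined up to finitely many colours

`pih : G →+ U` the values of the words, `A : G →+ M` the operators of the words (`M` any group of exponent two with balls
`Bb`, for example the additive maps of `U` and bounded range).  The lines `T'` have value `0` and operator in `Bb c1`.
`P` is a dense set of letters whose words of three and five letters fall in few classes modulo `Ball T'`, with bounded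
fibres of the values.  Then the words of value zero have finitely many operators up to a bounded error, and there is
`L : U → M`, additive up to a bounded error, with `A z ∼ L (pih z) + ν z`, `ν z` in a finite set of bounded size.
-/

namespace Pool.Agent.helper53.MF9

open Pool.Agent.helper71.MF7b (Nrm Wd exists_pair nrm_ball cF cm)
open Pool.Agent.helper35.MF (Ball sy wd two_eq ball_add)
open Pool.Agent.helper16.MF (Pair)

/-- the input of `exists_L` -/
structure LIn (a b3 b5 K3 K5 KU Kf c1 n : ℕ) {X U M : Type} [AddCommGroup U] [Fintype U] [AddCommGroup M]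
    (Bb : ℕ → Set M) (T' : Set (X →₀ ZMod 2)) (P : Finset X) (pih : (X →₀ ZMod 2) →+ U)
    (A : (X →₀ ZMod 2) →+ M) : Prop where
  nrm : Nrm Bb
  twoU : ∀ u : U, u + u = 0
  twoM : ∀ x : M, x + x = 0
  npos : 0 < n
  big : n ≤ P.card * a
  cardU : Fintype.card U ≤ KU * n
  pihT : ∀ t ∈ T', pih t = 0
  AT : ∀ t ∈ T', A t ∈ Bb c1
  fib : ∀ p ∈ P, ∀ Q : Finset X, Q ⊆ P → (∀ q ∈ Q, pih (sy q) = pih (sy p)) → Q.card ≤ Kf
  cov3 : ∀ W : Finset (X →₀ ZMod 2),
    (∀ w ∈ W, ∃ l : List X, l.length = 3 ∧ (∀ x ∈ l, x ∈ P) ∧ wd l = w) →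
    (∀ w ∈ W, ∀ w' ∈ W, w ≠ w' → w + w' ∉ Ball T' b3) → W.card ≤ K3 * n
  cov5 : ∀ W : Finset (X →₀ ZMod 2),
    (∀ w ∈ W, ∃ l : List X, l.length = 5 ∧ (∀ x ∈ l, x ∈ P) ∧ wd l = w) →
    (∀ w ∈ W, ∀ w' ∈ W, w ≠ w' → w + w' ∉ Ball T' b5) → W.card ≤ K5 * n

/-- the number of classes of words of value zero -/
def mL (a b3 b5 K3 K5 Kf : ℕ) : ℕ := cm a b3 b5 K3 K5 (fun _ => Kf) 0

/-- the error before the splitting -/
def r0L (b3 b5 c1 : ℕ) : ℕ := c1 * (2 * (b3 + b5) + 4 * b3)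

/-- the error of `L` -/
def rL (a b3 b5 K3 K5 Kf c1 : ℕ) : ℕ := 2 * rS (mL a b3 b5 K3 K5 Kf) (r0L b3 b5 c1)

/-- the length of the words -/
def lL (a b5 K5 Kf : ℕ) : ℕ := 2 + 4 * cF a b5 K5 (fun _ => Kf)

/-- **`L` is well defined up to finitely many colours.** -/
theorem exists_L {a b3 b5 K3 K5 KU Kf c1 n : ℕ} {X U M : Type} [AddCommGroup U] [Fintype U] [AddCommGroup M]
    {Bb : ℕ → Set M} {T' : Set (X →₀ ZMod 2)} {P : Finset X} {pih : (X →₀ ZMod 2) →+ U}
    {A : (X →₀ ZMod 2) →+ M} (h : LIn a b3 b5 K3 K5 KU Kf c1 n Bb T' P pih A) :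
    ∃ (L : U → M) (S : Finset M) (x0 : M) (ν : X → M) (U0 : AddSubgroup U),
      L 0 = 0 ∧ (∀ u v, L u + L v + L (u + v) ∈ Bb (rL a b3 b5 K3 K5 Kf c1)) ∧
      S.card ≤ 2 ^ mL a b3 b5 K3 K5 Kf ∧ (0 : M) ∈ S ∧ (∀ x ∈ S, ∀ y ∈ S, x + y ∈ S) ∧
      (∀ p ∈ P, ν p + x0 ∈ S ∧ A (sy p) + L (pih (sy p)) + ν p ∈ Bb (rL a b3 b5 K3 K5 Kf c1)) ∧
      (∀ p ∈ P, ∀ q ∈ P, pih (sy p) + pih (sy q) ∈ U0) ∧
      (∀ u ∈ U0, ∃ l : List X, l.length ≤ lL a b5 K5 Kf ∧ Even l.length ∧ (∀ x ∈ l, x ∈ P) ∧ pih (wd l) = u) := by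
  classical
  have hBb := h.nrm
  have twoU := h.twoU
  have twoM := h.twoM
  -- the pair
  let B : ℕ → Set (X →₀ ZMod 2) := fun _ => {g | pih g = 0}
  have hB : Nrm B := ⟨map_zero pih, fun _ _ hg => hg, fun {_ _ a b} ha hb => by
    show pih (a + b) = 0
    rw [map_add, show pih a = 0 from ha, show pih b = 0 from hb, add_zero]⟩
  have hB' : Nrm (Ball T') := nrm_ball T'
  have hle : ∀ r, Ball T' r ⊆ B r := by
    rintro r g ⟨l, -, h2, rfl⟩
    show pih l.sum = 0
    rw [map_list_sum]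
    refine List.sum_eq_zero fun x hx => ?_
    obtain ⟨y, hy, rfl⟩ := List.mem_map.mp hx
    exact h.pihT y (h2 y hy)
  have hpos : 0 < P.card := by
    rcases Nat.eq_zero_or_pos P.card with h1 | h1
    · have := h.big
      rw [h1, Nat.zero_mul] at this
      have := h.npos
      omega
    · exact h1
  obtain ⟨p0, hp0⟩ := Finset.card_pos.mp hpos
  obtain ⟨Ds, hD0, hDw, hDp, hpair⟩ := exists_pair (X := X) two_eq hB hB' hle (fun x => sy x) P Set.univ n a b3 b5
    K3 K5 KU (fun _ => Kf) h.npos h.big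
    (by
      intro b p hp Q hQ hq
      refine h.fib p hp Q hQ fun q hqQ => ?_
      have h1 : pih (sy p + sy q) = 0 := hq q hqQ
      rw [map_add] at h1
      calc pih (sy q) = pih (sy p) + (pih (sy p) + pih (sy q)) := by rw [← add_assoc, twoU, zero_add]
        _ = pih (sy p) := by rw [h1, add_zero])
    (by
      intro W hW hs
      exact h.cov3 W (fun w hw => by obtain ⟨l, h1, h2, h3⟩ := hW w hw; exact ⟨l, h1, h2, h3⟩) hs)
    (by
      intro W hW hs
      exact h.cov5 W (fun w hw => by obtain ⟨l, h1, h2, h3⟩ := hW w hw; exact ⟨l, h1, h2, h3⟩) hs)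
    (by
      intro W _ hs
      have h1 : Set.InjOn pih (W : Set (X →₀ ZMod 2)) := by
        intro w hw w' hw' he
        by_contra hne
        refine hs w hw w' hw' hne ?_
        show pih (w + w') = 0
        rw [map_add, he, twoU]
      have h2 := Finset.card_image_of_injOn h1
      rw [← h2]
      exact (Finset.card_le_univ _).trans h.cardU)
  -- operators of balls
  have hAB : ∀ r, ∀ g ∈ Ball T' r, A g ∈ Bb (c1 * r) := by
    rintro r g ⟨l, h1, h2, rfl⟩
    have key : ∀ l : List (X →₀ ZMod 2), (∀ x ∈ l, x ∈ T') → A l.sum ∈ Bb (c1 * l.length) := by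
      intro l
      induction l with
      | nil =>
        intro _
        simp only [List.sum_nil, map_zero, List.length_nil, Nat.mul_zero]
        exact hBb.zero
      | cons t l ih =>
        intro hl
        rw [List.sum_cons, map_add, List.length_cons]
        have h3 := hBb.add (h.AT t (hl t List.mem_cons_self)) (ih fun x hx => hl x (List.mem_cons_of_mem _ hx))
        exact hBb.mono (by ring_nf; omega) h3
    exact hBb.mono (Nat.mul_le_mul_left _ h1) (key l h2)
  -- the classes of words of value zero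
  obtain ⟨E, hE, hnet⟩ := hpair.net 0
  let F : Finset M := E.image A
  have hF : F.card ≤ mL a b3 b5 K3 K5 Kf := Finset.card_image_le.trans hE
  have hnull : ∀ x ∈ Ds, pih x = 0 → ∃ f ∈ F, A x + f ∈ Bb (c1 * (4 * b3)) := by
    intro x hx hx0
    obtain ⟨ε, hε, hε'⟩ := hnet x hx hx0
    refine ⟨A ε, Finset.mem_image_of_mem _ hε, ?_⟩
    rw [← map_add]
    exact hAB _ _ hε'
  -- the values of `Ds`
  let U0 : AddSubgroup U :=
    { carrier := {u | ∃ w ∈ Ds, pih w = u}
      zero_mem' := ⟨0, hD0, map_zero _⟩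
      add_mem' := by
        rintro u v ⟨w, hw, rfl⟩ ⟨w', hw', rfl⟩
        obtain ⟨d, hd, hd'⟩ := hpair.Dadd w hw w' hw'
        refine ⟨d, hd, ?_⟩
        have h1 : pih (w + w' + d) = 0 := hle _ hd'
        rw [map_add, map_add] at h1
        calc pih d = pih w + pih w' + (pih w + pih w' + pih d) := by
              rw [← add_assoc, twoU, zero_add]
          _ = pih w + pih w' := by rw [h1, add_zero]
      neg_mem' := by
        rintro u ⟨w, hw, rfl⟩
        refine ⟨w, hw, ?_⟩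
        exact (neg_eq_of_add_eq_zero_left (twoU _)).symm }
  have hU0 : ∀ u, u ∈ U0 ↔ ∃ w ∈ Ds, pih w = u := fun u => Iff.rfl
  -- the projection to `U0`
  let _ : Module (ZMod 2) U := AddCommGroup.zmodModule (fun x => by rw [two_nsmul]; exact twoU x)
  let V0 : Submodule (ZMod 2) U := AddSubgroup.toZModSubmodule 2 U0
  obtain ⟨q, hq⟩ := Submodule.exists_isCompl V0
  let pr : U →ₗ[ZMod 2] U := V0.projection q hq
  have hpr1 : ∀ u, pr u ∈ U0 := fun u => Submodule.projection_apply_mem hq u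
  have hpr2 : ∀ u ∈ U0, pr u = u := fun u hu => Submodule.projection_apply_of_mem_left hq hu
  have hchoice : ∀ u : U, ∃ w : X →₀ ZMod 2, (u ∈ U0 → w ∈ Ds ∧ pih w = u) ∧ (u = 0 → w = 0) := by
    intro u
    by_cases h0 : u = 0
    · exact ⟨0, fun _ => ⟨hD0, by rw [map_zero, h0]⟩, fun _ => rfl⟩
    · by_cases hu : u ∈ U0
      · obtain ⟨w, hw, hw'⟩ := (hU0 u).mp hu
        exact ⟨w, fun _ => ⟨hw, hw'⟩, fun h1 => absurd h1 h0⟩
      · exact ⟨0, fun h1 => absurd h1 hu, fun _ => rfl⟩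
  choose w hw1 hw2 using hchoice
  let ℓ : U → M := fun u => A (w (pr u))
  have hℓ0 : ℓ 0 = 0 := by
    show A (w (pr 0)) = 0
    rw [map_zero pr, hw2 0 rfl, map_zero]
  -- three words whose values add up to zero
  have hthree : ∀ x y z : X →₀ ZMod 2, x ∈ Ds → y ∈ Ds → z ∈ Ds → pih x + pih y + pih z = 0 →
      ∃ f ∈ F, A x + A y + A z + f ∈ Bb (r0L b3 b5 c1) := by
    intro x y z hx hy hz hs
    obtain ⟨d1, hd1, hd1'⟩ := hpair.Dadd x hx y hy
    obtain ⟨d2, hd2, hd2'⟩ := hpair.Dadd d1 hd1 z hz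
    have h1 : x + y + z + d2 ∈ Ball T' (2 * (b3 + b5)) := by
      have h2 := ball_add hd1' hd2'
      have h3 : x + y + d1 + (d1 + z + d2) = x + y + z + d2 + (d1 + d1) := by abel
      rw [h3, two_eq, add_zero] at h2
      exact hB'.mono (by omega) h2
    have h2 : pih d2 = 0 := by
      have h3 : pih (x + y + z + d2) = 0 := hle _ h1
      rw [map_add, map_add, map_add, hs, zero_add] at h3
      exact h3
    obtain ⟨f, hf, hf'⟩ := hnull d2 hd2 h2
    refine ⟨f, hf, ?_⟩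
    have h3 := hBb.add (hAB _ _ h1) hf'
    rw [map_add, map_add, map_add] at h3
    have h4 : A x + A y + A z + A d2 + (A d2 + f) = A x + A y + A z + f + (A d2 + A d2) := by abel
    rw [h4, twoM, add_zero] at h3
    refine hBb.mono ?_ h3
    rw [r0L]
    have h5 : c1 * (2 * (b3 + b5) + 4 * b3) = c1 * (2 * (b3 + b5)) + c1 * (4 * b3) := by ring
    omega
  have hℓ : ∀ u v, ∃ f ∈ F, ℓ u + ℓ v + ℓ (u + v) + f ∈ Bb (r0L b3 b5 c1) := by
    intro u v
    refine hthree _ _ _ (hw1 _ (hpr1 u)).1 (hw1 _ (hpr1 v)).1 (hw1 _ (hpr1 (u + v))).1 ?_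
    rw [(hw1 _ (hpr1 u)).2, (hw1 _ (hpr1 v)).2, (hw1 _ (hpr1 (u + v))).2, map_add, twoU]
  obtain ⟨S, g, hS, hS0, hFS, hSadd, hgS, hg0, hL⟩ := split twoU twoM hBb F hF ℓ hℓ0 hℓ
  have hrS : r0L b3 b5 c1 + rS (mL a b3 b5 K3 K5 Kf) (r0L b3 b5 c1) ≤ rL a b3 b5 K3 K5 Kf c1 := by
    rw [rL]
    have : r0L b3 b5 c1 ≤ rS (mL a b3 b5 K3 K5 Kf) (r0L b3 b5 c1) := by
      rw [rS]
      omega
    omega
  let L : U → M := fun u => ℓ u + g u
  have hp0S : ∀ p ∈ P, pih (sy p) + pih (sy p0) ∈ U0 := by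
    intro p hp
    exact ⟨sy p + sy p0, hDp p hp p0 hp0, map_add _ _ _⟩
  -- the colours
  let x0 : M := A (sy p0) + L (pih (sy p0))
  have hcol : ∀ p, ∃ ν : M, p ∈ P → ν + x0 ∈ S ∧
      A (sy p) + L (pih (sy p)) + ν ∈ Bb (rL a b3 b5 K3 K5 Kf c1) := by
    intro p
    by_cases hp : p ∈ P
    · set u := pih (sy p) + pih (sy p0) with hu
      have huU : u ∈ U0 := hp0S p hp
      obtain ⟨f, hf, hf'⟩ := hthree (sy p + sy p0) (w u) 0 (hDp p hp p0 hp0) (hw1 u huU).1 hD0 (by
        rw [map_add, (hw1 u huU).2, map_zero, add_zero, ← hu, twoU])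
      rw [map_add, map_zero, add_zero] at hf'
      have hℓu : ℓ u = A (w u) := by
        show A (w (pr u)) = A (w u)
        rw [hpr2 u huU]
      rw [← hℓu] at hf'
      refine ⟨f + g u + x0, fun _ => ⟨?_, ?_⟩⟩
      · have h1 : f + g u + x0 + x0 = f + g u + (x0 + x0) := by abel
        rw [h1, twoM, add_zero]
        exact hSadd _ (hFS f hf) _ (hgS u)
      · have h1 := hL (pih (sy p)) (pih (sy p0))
        rw [← hu] at h1
        have h2 := hBb.add hf' h1
        have h3 : A (sy p) + A (sy p0) + ℓ u + f +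
            (ℓ (pih (sy p)) + g (pih (sy p)) + (ℓ (pih (sy p0)) + g (pih (sy p0))) + (ℓ u + g u)) =
            A (sy p) + L (pih (sy p)) + (f + g u + x0) + (ℓ u + ℓ u) := by
          show _ = A (sy p) + (ℓ (pih (sy p)) + g (pih (sy p))) +
            (f + g u + (A (sy p0) + (ℓ (pih (sy p0)) + g (pih (sy p0))))) + (ℓ u + ℓ u)
          abel
        rw [h3, twoM, add_zero] at h2
        exact hBb.mono hrS h2
    · exact ⟨0, fun h1 => absurd h1 hp⟩
  choose ν hν using hcol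
  refine ⟨L, S, x0, ν, U0, ?_, fun u v => ?_, hS, hS0, hSadd, hν, fun p hp q hq => ?_, fun u hu => ?_⟩
  · show ℓ 0 + g 0 = 0
    rw [hℓ0, hg0, add_zero]
  · exact hBb.mono (by omega) (hL u v)
  · exact ⟨sy p + sy q, hDp p hp q hq, map_add _ _ _⟩
  · obtain ⟨e, he, rfl⟩ := hu
    obtain ⟨l, h1, h2, h3, h4⟩ := hDw e he
    exact ⟨l, h1, h2, h3, by rw [← h4]⟩

end Pool.Agent.helper53.MF9
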