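import Pool.Agent.helper53.MF9.L
import Pool.Agent.MF.SlotB
import Pool.Agent.MF.LemT
import Pool.Agent.helper34.MF.Rel

set_option autoImplicit false

/-!
# MP_141f81, Section 9 (R4): the rows give `L : U → End U`

`EMOut M n T R S U π`, `S2` the second joint cleaning (`JCOut M univ κ S S2`), `Lm` a space of roles which contains the
linear part, operators `Aop v y` of the letters of `S` with roles in `Lm` which satisfy the lines of `S` up to bounded
range.  Then there is `L : U → End U`, additive on `U` up to bounded range, and finitely many colours `VV`, with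
`Aop v (η v) ∼ L (π v (η v)) + ν v (η v)`, `ν v (η v) ∈ VV`, for all `η ∈ S2` and all roles `v ∈ Lm`, `v ≠ 0`.
-/

namespace Pool.Agent.helper53.MF9

open Finset
open Pool.Agent.MF
open Pool.Agent.MF.LemT (nr kr)
open Pool.Agent.helper35.MF (Ball wd sy)
open Pool.Agent.helper71.MF7b (Nrm)
open Helper34MF (ev ev_single ev_sy map_two)

section balls

variable {U : Type} [AddCommGroup U]

/-- additive maps with at most `2 ^ r` values -/
def Bn (U : Type) [AddCommGroup U] (r : ℕ) : Set (AddMonoid.End U) := {f | nr f ≤ 2 ^ r}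

theorem nrm_Bn [Finite U] : Nrm (Bn U) := by
  refine ⟨?_, ?_, ?_⟩
  · show nr (0 : AddMonoid.End U) ≤ 2 ^ 0
    have h : nr (0 : AddMonoid.End U) = 1 := by
      show Nat.card (AddMonoidHom.range (0 : U →+ U)) = 1
      rw [AddMonoidHom.range_zero]
      exact AddSubgroup.card_bot
    rw [h]
    norm_num
  · intro r r' h f hf
    exact le_trans hf (Nat.pow_le_pow_right (by norm_num) h)
  · intro r r' f g hf hg
    show nr (f + g) ≤ 2 ^ (r + r')
    rw [pow_add]
    exact (LemT.nr_add f g).trans (Nat.mul_le_mul hf hg)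

end balls

section rows

variable {N : Type} [AddCommGroup N] [Fintype N] [DecidableEq N]

/-- the values of words -/
noncomputable def pv {n : ℕ} {U : Type} [AddCommGroup U] (two : ∀ u : U, u + u = 0) (π : N → Fin n → U) :
    G N n →+ U := ev two (fun p : N × Fin n => π p.1 p.2)

theorem pv_sy {n : ℕ} {U : Type} [AddCommGroup U] (two : ∀ u : U, u + u = 0) (π : N → Fin n → U)
    (p : N × Fin n) : pv two π (sy p) = π p.1 p.2 := ev_sy two _ p

theorem ev_lin {n : ℕ} {M : Type*} [AddCommGroup M] (two : ∀ m : M, m + m = 0) (A : N × Fin n → M)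
    (ρ : N → Fin n) (u v : N) : ev two A (lin ρ u v) = A (u, ρ u) + A (v, ρ v) + A (u + v, ρ (u + v)) := by
  rw [lin, lt, lt, lt, map_add, map_add, ev_single, ev_single, ev_single]

theorem ev_wd {X : Type} {M : Type*} [AddCommGroup M] (two : ∀ m : M, m + m = 0) (A : X → M) (l : List X) :
    ev two A (wd l) = (l.map A).sum := by
  rw [wd, map_list_sum, List.map_map]
  congr 1
  refine List.map_congr_left fun x _ => ?_
  exact ev_sy two A x

/-- **(R4), first part**: the letters of `S2`, the lines of `S`, the values and the operators are an input of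
`exists_L`. -/
theorem lin_rows {M : Mat N} {Lin Lm : Finset N} (hLin : LinPart M Lin) (hsub : Lin ⊆ Lm)
    (hadd : ∀ u ∈ Lm, ∀ v ∈ Lm, u + v ∈ Lm) {T C3 a n : ℕ} {κ : ℝ} (hκ : 0 < κ) (ha : κ⁻¹ ≤ a)
    {R S S2 : Finset (N → Fin n)} {U : Type} [AddCommGroup U] [Fintype U] [DecidableEq U] {π : N → Fin n → U}
    (h : EMOut M n T R S U π) (hJ : JCOut M Finset.univ κ S S2) (hS2 : S2.Nonempty)
    {Aop : N → Fin n → AddMonoid.End U} (two2 : ∀ f : AddMonoid.End U, f + f = 0)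
    (hA : ∀ ρ ∈ S, ∀ u ∈ Lm, ∀ v ∈ Lm, M.Ind ∅ u v →
      nr (Aop u (ρ u) + Aop v (ρ v) + Aop (u + v) (ρ (u + v))) ≤ C3) :
    LIn a 82 82 (covK κ (Fintype.card N) 2) (covK κ (Fintype.card N) 4) T (Fintype.card N * T) C3 n (Bn U)
      (Lines M ∅ Lm S) (PL M ∅ Lm S2) (pv h.two π) (ev two2 (fun p : N × Fin n => Aop p.1 p.2)) := by
  classical
  obtain ⟨η0, hη0⟩ := hS2
  have hn : 0 < n := by
    rcases Nat.eq_zero_or_pos n with hn | hn
    · subst hn
      exact (η0 0).elim0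
    · exact hn
  have hSR : S ⊆ R := by
    obtain ⟨κ', _, hJ'⟩ := h.jc
    exact hJ'.1
  have hES : Exact M S := fun Q v hv ρ hρ σ hσ huv => h.exact Q v hv ρ (hSR hρ) σ (hSR hσ) huv
  have hI := imData_top hn hES hJ Lm ⟨η0, hη0⟩
  have hrich := richL_of hLin (by rw [M.rk_empty]; exact Nat.zero_le _ : M.rk ∅ ≤ 2) hsub hadd
  have hball : ∀ g : G N n, g ∈ Ball (Tt M ∅ Lm S S2) 1 → g ∈ Ball (Lines M ∅ Lm S) 82 := fun g hg => Tt_ball 1 hg
  refine
    { nrm := nrm_Bn
      twoU := h.two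
      twoM := two2
      npos := hn
      big := PL_big hI hκ ⟨η0, hη0⟩
        (indL_of hLin (by rw [M.rk_empty]; exact Nat.zero_le _ : M.rk ∅ ≤ 2) hsub hadd) ha
      cardU := h.cardU
      pihT := ?_
      AT := ?_
      fib := ?_
      cov3 := ?_
      cov5 := ?_ }
  · rintro t ⟨ρ, hρ, u, hu, v, hv, huv, hi, rfl⟩
    rw [pv, ev_lin]
    show π u (ρ u) + π v (ρ v) + π (u + v) (ρ (u + v)) = 0
    rw [h.add ρ (hSR hρ) u v]
    exact h.two _
  · rintro t ⟨ρ, hρ, u, hu, v, hv, huv, hi, rfl⟩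
    rw [ev_lin]
    show nr (Aop u (ρ u) + Aop v (ρ v) + Aop (u + v) (ρ (u + v))) ≤ 2 ^ C3
    exact (hA ρ hρ u hu v hv hi).trans (Nat.lt_two_pow_self).le
  · intro p hp Q hQ hq
    have h1 : Q ⊆ (univ : Finset N).biUnion fun v =>
        ((univ.filter fun y : Fin n => v ≠ 0 ∧ (∃ ρ ∈ R, ρ v = y) ∧ π v y = π p.1 p.2)).image
          fun y => ((v, y) : N × Fin n) := by
      intro q hqQ
      have h2 := mem_PL.1 (hQ hqQ)
      obtain ⟨-, h3, ρ, hρ, h4⟩ := h2
      have h5 := hq q hqQ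
      rw [pv_sy, pv_sy] at h5
      rw [mem_biUnion]
      refine ⟨q.1, mem_univ _, ?_⟩
      rw [mem_image]
      refine ⟨q.2, ?_, rfl⟩
      rw [mem_filter]
      exact ⟨mem_univ _, SD_ne h3, ⟨ρ, hSR (hJ.1 hρ), h4⟩, h5⟩
    refine (card_le_card h1).trans ?_
    refine card_biUnion_le.trans ?_
    calc ∑ v : N, _ ≤ ∑ _v : N, T := ?_
      _ = Fintype.card N * T := by rw [sum_const, card_univ, smul_eq_mul]
    refine sum_le_sum fun v _ => ?_
    refine card_image_le.trans ?_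
    by_cases hv : v = 0
    · rw [filter_false_of_mem]
      · exact Nat.zero_le _
      · rintro y - ⟨h2, -⟩
        exact h2 hv
    · refine (card_le_card ?_).trans (h.fib v (π p.1 p.2) hv)
      intro y hy
      rw [mem_filter] at hy ⊢
      exact ⟨hy.1, hy.2.2⟩
  · intro W hW hs
    refine cov_words hI hκ (by norm_num) (hrich.mono (by norm_num)) W hW fun w hw w' hw' hne hb => ?_
    exact hs w hw w' hw' hne (hball _ hb)
  · intro W hW hs
    refine cov_words hI hκ (by norm_num) (hrich.mono (by norm_num)) W hW fun w hw w' hw' hne hb => ?_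
    exact hs w hw w' hw' hne (hball _ hb)

/-- the output of (R4): `L`, the colours `VV`, `ν`, the subgroup `U0` of the values of even words -/
structure LOut (M : Mat N) (Lm : Finset N) {n : ℕ} (S2 : Finset (N → Fin n)) {U : Type} [AddCommGroup U]
    [Fintype U] (π : N → Fin n → U) (Aop : N → Fin n → AddMonoid.End U) (C : ℕ) (L : U → AddMonoid.End U)
    (VV : Finset (AddMonoid.End U)) (ν : N → Fin n → AddMonoid.End U) (U0 : AddSubgroup U) : Prop where
  zero : L 0 = 0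
  add : ∀ u v : U, nr (L (u + v) + (L u + L v)) ≤ C
  cardV : VV.card ≤ C
  mem : ∀ η ∈ S2, ∀ v ∈ Lm, v ≠ 0 → ν v (η v) ∈ VV
  op : ∀ η ∈ S2, ∀ v ∈ Lm, v ≠ 0 → nr (Aop v (η v) + L (π v (η v)) + ν v (η v)) ≤ C
  index : U0.index ≤ C
  diff : ∀ η ∈ S2, ∀ v ∈ Lm, v ≠ 0 → ∀ η' ∈ S2, ∀ v' ∈ Lm, v' ≠ 0 → π v (η v) + π v' (η' v') ∈ U0
  word : ∀ u ∈ U0, ∃ l : List (N × Fin n), l.length ≤ C ∧ Even l.length ∧
    (∀ x ∈ l, x.1 ∈ Lm ∧ x.1 ≠ 0 ∧ ∃ η ∈ S2, η x.1 = x.2) ∧ (l.map fun x => π x.1 x.2).sum = u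

/-- **(R4)**: `L : U → End U` for the rows.  One constant `C`. -/
theorem exists_LRows (M : Mat N) (Lin Lm : Finset N) (hLin : LinPart M Lin) (hsub : Lin ⊆ Lm)
    (hadd : ∀ u ∈ Lm, ∀ v ∈ Lm, u + v ∈ Lm) (T C3 : ℕ) (κ : ℝ) (hκ : 0 < κ) :
    ∃ C : ℕ, ∀ (n : ℕ) (R S S2 : Finset (N → Fin n)) (U : Type) (_ : AddCommGroup U) (_ : Fintype U)
      (_ : DecidableEq U) (π : N → Fin n → U), EMOut M n T R S U π → JCOut M Finset.univ κ S S2 → S2.Nonempty →
    ∀ (Aop : N → Fin n → AddMonoid.End U),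
      (∀ ρ ∈ S, ∀ u ∈ Lm, ∀ v ∈ Lm, M.Ind ∅ u v →
        nr (Aop u (ρ u) + Aop v (ρ v) + Aop (u + v) (ρ (u + v))) ≤ C3) →
      ∃ (L : U → AddMonoid.End U) (VV : Finset (AddMonoid.End U)) (ν : N → Fin n → AddMonoid.End U)
        (U0 : AddSubgroup U), LOut M Lm S2 π Aop C L VV ν U0 := by
  classical
  obtain ⟨a, ha⟩ := exists_nat_ge κ⁻¹
  obtain ⟨K3, hK3⟩ : ∃ K3, K3 = covK κ (Fintype.card N) 2 := ⟨_, rfl⟩
  obtain ⟨K5, hK5⟩ : ∃ K5, K5 = covK κ (Fintype.card N) 4 := ⟨_, rfl⟩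
  obtain ⟨Kf, hKf⟩ : ∃ Kf, Kf = Fintype.card N * T := ⟨_, rfl⟩
  obtain ⟨c1, hc1⟩ : ∃ c1, c1 = 2 ^ rL a 82 82 K3 K5 Kf C3 := ⟨_, rfl⟩
  obtain ⟨c2, hc2⟩ : ∃ c2, c2 = 2 ^ mL a 82 82 K3 K5 Kf := ⟨_, rfl⟩
  obtain ⟨c3, hc3⟩ : ∃ c3, c3 = T * (a * Kf) := ⟨_, rfl⟩
  refine ⟨c1 + c2 + lL a 82 K5 Kf + c3, ?_⟩
  intro n R S S2 U i1 i2 i3 π h hJ hS2 Aop hA
  have two2 : ∀ f : AddMonoid.End U, f + f = 0 := fun f => map_two h.two f
  have hin := lin_rows hLin hsub hadd hκ ha h hJ hS2 two2 hA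
  rw [← hK3, ← hK5, ← hKf] at hin
  obtain ⟨L, Sg, x0, ν, U0, h0, h1, h2, h3, h4, h5, h6, h7⟩ := exists_L hin
  have hPL : ∀ η ∈ S2, ∀ v ∈ Lm, v ≠ 0 → ((v, η v) : N × Fin n) ∈ PL M ∅ Lm S2 := by
    intro η hη v hv hv0
    exact mem_PL.2 ⟨hv, SD_empty.2 hv0, η, hη, rfl⟩
  have hval : ∀ p : N × Fin n, pv h.two π (sy p) = π p.1 p.2 := pv_sy h.two π
  have hop : ∀ p : N × Fin n, ev two2 (fun p : N × Fin n => Aop p.1 p.2) (sy p) = Aop p.1 p.2 :=
    fun p => ev_sy two2 _ p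
  refine ⟨L, Sg.image (fun f => f + x0), fun v y => ν (v, y), U0, ?_⟩
  refine ⟨h0, ?_, ?_, ?_, ?_, ?_, ?_, ?_⟩
  · intro u v
    have h8 : nr (L u + L v + L (u + v)) ≤ c1 := by rw [hc1]; exact h1 u v
    rw [add_comm (L (u + v))]
    omega
  · have h8 : (Sg.image (fun f => f + x0)).card ≤ Sg.card := card_image_le
    rw [← hc2] at h2
    omega
  · intro η hη v hv hv0
    rw [mem_image]
    refine ⟨ν (v, η v) + x0, (h5 _ (hPL η hη v hv hv0)).1, ?_⟩
    rw [add_assoc, two2, add_zero]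
  · intro η hη v hv hv0
    have h8 := (h5 _ (hPL η hη v hv hv0)).2
    rw [hop, hval] at h8
    have h9 : nr (Aop v (η v) + L (π v (η v)) + ν (v, η v)) ≤ c1 := by rw [hc1]; exact h8
    omega
  · -- the index
    obtain ⟨η0, hη0⟩ := hS2
    have hbig := hin.big
    have hpos : 0 < (PL M ∅ Lm S2).card := by
      rcases Nat.eq_zero_or_pos (PL M ∅ Lm S2).card with h8 | h8
      · rw [h8, Nat.zero_mul] at hbig
        have := hin.npos
        omega
      · exact h8
    obtain ⟨p0, hp0⟩ := card_pos.1 hpos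
    have h8 : (PL M ∅ Lm S2).card ≤ Kf * ((PL M ∅ Lm S2).image fun p => pv h.two π (sy p)).card := by
      refine card_le_mul_card_image _ Kf fun u hu => ?_
      rw [mem_image] at hu
      obtain ⟨p, hp, rfl⟩ := hu
      refine hin.fib p hp _ (filter_subset _ _) fun q hq => ?_
      rw [mem_filter] at hq
      exact hq.2
    have h9 : ((PL M ∅ Lm S2).image fun p => pv h.two π (sy p)).card ≤ Nat.card U0 := by
      rw [← SetLike.coe_sort_coe U0, Nat.card_coe_set_eq]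
      have h10 : (((PL M ∅ Lm S2).image fun p => pv h.two π (sy p)).image
          fun u => u + pv h.two π (sy p0)).card = ((PL M ∅ Lm S2).image fun p => pv h.two π (sy p)).card :=
        card_image_of_injective _ (fun u v huv => add_right_cancel huv)
      rw [← h10]
      have h11 : ((((PL M ∅ Lm S2).image fun p => pv h.two π (sy p)).image
          fun u => u + pv h.two π (sy p0) : Finset U) : Set U) ⊆ (U0 : Set U) := by
        intro x hx
        rw [mem_coe, mem_image] at hx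
        obtain ⟨y, hy, rfl⟩ := hx
        rw [mem_image] at hy
        obtain ⟨p, hp, rfl⟩ := hy
        exact h6 p hp p0 hp0
      have h12 := Set.ncard_le_ncard h11 (Set.toFinite _)
      rw [Set.ncard_coe_finset] at h12
      exact h12
    have h10 := AddSubgroup.card_mul_index U0
    have h11 : Nat.card U ≤ T * n := by
      rw [Nat.card_eq_fintype_card]
      exact h.cardU
    have hposU : 0 < Nat.card U0 := Nat.card_pos
    have h12 : Nat.card U0 * U0.index ≤ Nat.card U0 * (T * (a * Kf)) := by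
      calc Nat.card U0 * U0.index = Nat.card U := h10
        _ ≤ T * n := h11
        _ ≤ T * ((PL M ∅ Lm S2).card * a) := Nat.mul_le_mul_left _ hbig
        _ ≤ T * ((Kf * Nat.card U0) * a) := by
            refine Nat.mul_le_mul_left _ (Nat.mul_le_mul_right _ (h8.trans (Nat.mul_le_mul_left _ h9)))
        _ = Nat.card U0 * (T * (a * Kf)) := by ring
    have h13 := Nat.le_of_mul_le_mul_left h12 hposU
    rw [← hc3] at h13
    omega
  · intro η hη v hv hv0 η' hη' v' hv' hv0'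
    have h8 := h6 _ (hPL η hη v hv hv0) _ (hPL η' hη' v' hv' hv0')
    rw [hval, hval] at h8
    exact h8
  · intro u hu
    obtain ⟨l, h8, h9, h10, h11⟩ := h7 u hu
    refine ⟨l, by omega, h9, ?_, ?_⟩
    · intro x hx
      obtain ⟨h12, h13, η, hη, h14⟩ := mem_PL.1 (h10 x hx)
      exact ⟨h12, SD_ne h13, η, hη, h14⟩
    · rw [← h11, pv, ev_wd]

end rows

end Pool.Agent.helper53.MF9
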