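import Pool.Agent.MF.JCfinal
import Pool.Agent.MF.Frame2

set_option autoImplicit false

/-!
# MP_141f81, Section 9: the second joint cleaning
-/

namespace Pool.Agent.helper53.MF9

open Finset
open Pool.Agent.MF

/-- **the second joint cleaning** `S2` of the rows `S` -/
theorem exists_S2 {N : Type} [AddCommGroup N] [Fintype N] [DecidableEq N] (M : Mat N) (T : ℕ) :
    ∃ κ : ℝ, 0 < κ ∧ ∀ (n : ℕ) (R S : Finset (N → Fin n)) (U : Type) (_ : AddCommGroup U) (_ : Fintype U)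
      (_ : DecidableEq U) (π : N → Fin n → U), 0 < n → EMOut M n T R S U π →
      ∃ S2 : Finset (N → Fin n), JCOut M Finset.univ κ S S2 ∧ S2.Nonempty ∧ Exact M S2 := by
  classical
  rcases Nat.eq_zero_or_pos T with hT | hT
  · refine ⟨1, one_pos, ?_⟩
    intro n R S U i1 i2 i3 π hn h
    obtain ⟨κ, hκ, -⟩ := h.jc
    rw [hT, Nat.cast_zero, mul_zero] at hκ
    exact absurd hκ (by norm_num)
  have hT' : (0 : ℝ) < T := by exact_mod_cast hT
  obtain ⟨κ, hκ, h2⟩ := stmtJC N M Finset.univ (T : ℝ)⁻¹ (inv_pos.mpr hT')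
  refine ⟨κ, hκ, ?_⟩
  intro n R S U i1 i2 i3 π hn h
  obtain ⟨κ', hκ', hJ⟩ := h.jc
  have hES : Exact M S := fun Q v hv ρ hρ σ hσ huv => h.exact Q v hv ρ (hJ.1 hρ) σ (hJ.1 hσ) huv
  have hn' : (0 : ℝ) < (n : ℝ) ^ M.r := by
    have : (0 : ℝ) < n := by exact_mod_cast hn
    positivity
  have h3 : (T : ℝ)⁻¹ * (n : ℝ) ^ M.r ≤ (S.card : ℝ) := by
    refine le_trans (mul_le_mul_of_nonneg_right ?_ hn'.le) hJ.2.1
    rw [inv_le_iff_one_le_mul₀ hT']
    exact hκ'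
  obtain ⟨S2, hS2⟩ := h2 n hn S hES h3
  refine ⟨S2, hS2, ?_, ?_⟩
  · rw [← card_pos]
    have h4 : (0 : ℝ) < (S2.card : ℝ) := lt_of_lt_of_le (mul_pos hκ hn') hS2.2.1
    exact_mod_cast h4
  · exact fun Q v hv ρ hρ σ hσ huv => hES Q v hv ρ (hS2.1 hρ) σ (hS2.1 hσ) huv

end Pool.Agent.helper53.MF9
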