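import Pool.Agent.helper71.MF7b

set_option autoImplicit false

/-!
# MP_141f81, Section 9: splitting of finite ambiguities

`Cocycle.split`: a symmetric 2-cocycle between groups of exponent two splits.  `split`: a map `ℓ : U → M` which is
additive up to a finite set `F` and a bounded error becomes additive up to a bounded error after adding a map with values
in the span of `F`.
-/

namespace Pool.Agent.helper53.MF9

open Pool.Agent.helper71.MF7b (Nrm)

section cocycle

variable {U W : Type*} [AddCommGroup U] [AddCommGroup W]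

/-- a symmetric cocycle -/
structure Cocycle (c : U → U → W) : Prop where
  twoU : ∀ u : U, u + u = 0
  twoW : ∀ w : W, w + w = 0
  symm : ∀ u v, c u v = c v u
  zero : ∀ u, c u 0 = 0
  self : ∀ u, c u u = 0
  coc : ∀ u v w, c u v + c (u + v) w = c v w + c u (v + w)

/-- the twisted product -/
structure Tw (c : U → U → W) where
  /-- first coordinate -/
  fst : U
  /-- second coordinate -/
  snd : W

omit [AddCommGroup U] [AddCommGroup W] in
@[ext] theorem Tw.ext' {c : U → U → W} {a b : Tw c} (h1 : a.fst = b.fst) (h2 : a.snd = b.snd) : a = b := by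
  cases a; cases b; simp_all

instance (c : U → U → W) : Add (Tw c) := ⟨fun a b => ⟨a.fst + b.fst, a.snd + b.snd + c a.fst b.fst⟩⟩
instance (c : U → U → W) : Zero (Tw c) := ⟨⟨0, 0⟩⟩
instance (c : U → U → W) : Neg (Tw c) := ⟨fun a => a⟩

theorem Tw.assoc {c : U → U → W} (h : Cocycle c) (a b d : Tw c) : a + b + d = a + (b + d) := by
  refine Tw.ext' (add_assoc _ _ _) ?_
  show a.snd + b.snd + c a.fst b.fst + d.snd + c (a.fst + b.fst) d.fst =
    a.snd + (b.snd + d.snd + c b.fst d.fst) + c a.fst (b.fst + d.fst)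
  have h1 := h.coc a.fst b.fst d.fst
  calc a.snd + b.snd + c a.fst b.fst + d.snd + c (a.fst + b.fst) d.fst
      = a.snd + b.snd + d.snd + (c a.fst b.fst + c (a.fst + b.fst) d.fst) := by abel
    _ = a.snd + b.snd + d.snd + (c b.fst d.fst + c a.fst (b.fst + d.fst)) := by rw [h1]
    _ = _ := by abel

/-- the group structure of the twisted product -/
@[reducible] def Tw.grp {c : U → U → W} (h : Cocycle c) : AddCommGroup (Tw c) :=
  { AddGroup.ofLeftAxioms (Tw.assoc h) (fun a => by
      refine Tw.ext' (zero_add _) ?_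
      show 0 + a.snd + c 0 a.fst = a.snd
      rw [h.symm, h.zero]
      simp) (fun a => by
      refine Tw.ext' (h.twoU _) ?_
      show a.snd + a.snd + c a.fst a.fst = 0
      rw [h.twoW, h.self]
      simp) with
    add_comm := fun a b => by
      refine Tw.ext' (add_comm _ _) ?_
      show a.snd + b.snd + c a.fst b.fst = b.snd + a.snd + c b.fst a.fst
      rw [h.symm, add_comm a.snd] }

theorem Cocycle.split {c : U → U → W} (h : Cocycle c) : ∃ g : U → W, ∀ u v, c u v = g u + g v + g (u + v) := by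
  let _ : AddCommGroup (Tw c) := Tw.grp h
  have hadd : ∀ a b : Tw c, a + b = ⟨a.fst + b.fst, a.snd + b.snd + c a.fst b.fst⟩ := fun a b => rfl
  have htw : ∀ a : Tw c, a + a = 0 := by
    intro a
    rw [hadd]
    refine Tw.ext' (h.twoU _) ?_
    show a.snd + a.snd + c a.fst a.fst = 0
    rw [h.twoW, h.self]
    simp
  let _ : Module (ZMod 2) (Tw c) := AddCommGroup.zmodModule (fun x => by rw [two_nsmul]; exact htw x)
  let _ : Module (ZMod 2) U := AddCommGroup.zmodModule (fun x => by rw [two_nsmul]; exact h.twoU x)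
  let p : Tw c →+ U := { toFun := fun a => a.fst, map_zero' := rfl, map_add' := fun a b => rfl }
  let pl : Tw c →ₗ[ZMod 2] U := p.toZModLinearMap 2
  have hp : Function.Surjective pl := fun u => ⟨⟨u, 0⟩, rfl⟩
  obtain ⟨s, hs⟩ := pl.exists_rightInverse_of_surjective (LinearMap.range_eq_top.mpr hp)
  have hs1 : ∀ u, (s u).fst = u := fun u => LinearMap.congr_fun hs u
  refine ⟨fun u => (s u).snd, fun u v => ?_⟩
  have h1 : s (u + v) = s u + s v := map_add s u v
  rw [hadd] at h1
  have h2 := congrArg Tw.snd h1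
  simp only [hs1] at h2
  show c u v = (s u).snd + (s v).snd + (s (u + v)).snd
  rw [h2]
  have h3 : (s u).snd + (s v).snd + ((s u).snd + (s v).snd + c u v) =
      c u v + (((s u).snd + (s u).snd) + ((s v).snd + (s v).snd)) := by abel
  rw [h3, h.twoW, h.twoW, add_zero, add_zero]

end cocycle

section split

variable {M : Type*} [AddCommGroup M]

/-- the gap: a finite set which is closed under addition meets the balls in a subgroup at some scale -/
theorem exists_scale {Bb : ℕ → Set M} (hB : Nrm Bb) (S : Finset M) (r0 : ℕ) :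
    ∃ i ≤ S.card, ∀ x ∈ S, x ∈ Bb (8 ^ (i + 1) * r0) → x ∈ Bb (8 ^ i * r0) := by
  classical
  by_contra hcon
  push Not at hcon
  choose! f hfS hf1 hf2 using hcon
  have hmono : ∀ i j, i < j → 8 ^ (i + 1) * r0 ≤ 8 ^ j * r0 := by
    intro i j hij
    exact Nat.mul_le_mul_right _ (Nat.pow_le_pow_right (by norm_num) hij)
  have hinj : Set.InjOn f (Finset.range (S.card + 1) : Set ℕ) := by
    intro i hi j hj hij
    rw [Finset.coe_range, Set.mem_Iio] at hi hj
    rcases Nat.lt_trichotomy i j with h | h | h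
    · exfalso
      apply hf2 j (by omega)
      rw [← hij]
      exact hB.mono (hmono i j h) (hf1 i (by omega))
    · exact h
    · exfalso
      apply hf2 i (by omega)
      rw [hij]
      exact hB.mono (hmono j i h) (hf1 j (by omega))
  have h1 : ((Finset.range (S.card + 1)).image f).card = S.card + 1 := by
    rw [Finset.card_image_of_injOn hinj, Finset.card_range]
  have h2 : ((Finset.range (S.card + 1)).image f) ⊆ S := by
    intro x hx
    obtain ⟨i, hi, rfl⟩ := Finset.mem_image.mp hx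
    exact hfS i (by rw [Finset.mem_range] at hi; omega)
  have h3 := Finset.card_le_card h2
  omega

/-- the radius of `split` -/
def rS (m r0 : ℕ) : ℕ := r0 + 8 ^ (2 ^ m) * r0

/-- **Splitting of a finite ambiguity.** -/
theorem split {U : Type*} [AddCommGroup U] (twoU : ∀ u : U, u + u = 0) (twoM : ∀ x : M, x + x = 0)
    {Bb : ℕ → Set M} (hB : Nrm Bb) (F : Finset M) {m r0 : ℕ} (hF : F.card ≤ m) (ℓ : U → M) (h0 : ℓ 0 = 0)
    (h : ∀ u v, ∃ f ∈ F, ℓ u + ℓ v + ℓ (u + v) + f ∈ Bb r0) :
    ∃ (S : Finset M) (g : U → M), S.card ≤ 2 ^ m ∧ (0 : M) ∈ S ∧ (∀ f ∈ F, f ∈ S) ∧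
      (∀ a ∈ S, ∀ b ∈ S, a + b ∈ S) ∧ (∀ u, g u ∈ S) ∧ g 0 = 0 ∧
      ∀ u v, (ℓ u + g u) + (ℓ v + g v) + (ℓ (u + v) + g (u + v)) ∈ Bb (rS m r0) := by
  classical
  obtain ⟨S, hSc, hS0, hFS, hSadd, -⟩ := Pool.Agent.helper71.MF7b.span_fin twoM F
  have hScard : S.card ≤ 2 ^ m := hSc.trans (Nat.pow_le_pow_right (by norm_num) hF)
  obtain ⟨i, hi, hgap⟩ := exists_scale hB S r0
  set ρ : ℕ := 8 ^ i * r0 with hρ
  have hρ8 : 8 ^ (i + 1) * r0 = 8 * ρ := by rw [hρ, pow_succ]; ring
  rw [hρ8] at hgap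
  have hr0 : r0 ≤ ρ := Nat.le_mul_of_pos_left _ (Nat.pow_pos (by norm_num))
  have hρb : ρ ≤ 8 ^ (2 ^ m) * r0 :=
    Nat.mul_le_mul_right _ (Nat.pow_le_pow_right (by norm_num) (hi.trans hScard))
  have hneg : ∀ x : M, -x = x := fun x => neg_eq_of_add_eq_zero_left (twoM x)
  -- the spaces
  let Sg : AddSubgroup M :=
    { carrier := {x | x ∈ S}
      zero_mem' := hS0
      add_mem' := fun {a b} ha hb => hSadd a ha b hb
      neg_mem' := fun {a} ha => by
        show -a ∈ S
        rw [hneg]
        exact ha }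
  let Hg : AddSubgroup M :=
    { carrier := {x | x ∈ S ∧ x ∈ Bb ρ}
      zero_mem' := ⟨hS0, hB.mono (Nat.zero_le _) hB.zero⟩
      add_mem' := fun {a b} ha hb =>
        ⟨hSadd a ha.1 b hb.1, hgap _ (hSadd a ha.1 b hb.1) (hB.mono (by omega) (hB.add ha.2 hb.2))⟩
      neg_mem' := fun {a} ha => by
        show -a ∈ S ∧ -a ∈ Bb ρ
        rw [hneg]
        exact ha }
  let _ : Module (ZMod 2) M := AddCommGroup.zmodModule (fun x => by rw [two_nsmul]; exact twoM x)
  let H' : Submodule (ZMod 2) M := AddSubgroup.toZModSubmodule 2 Hg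
  have hHmem : ∀ x, x ∈ H' ↔ x ∈ S ∧ x ∈ Bb ρ := fun x => Iff.rfl
  -- the projection along `H'`
  obtain ⟨q, hq⟩ := Submodule.exists_isCompl H'
  let π : M →ₗ[ZMod 2] M := q.projection H' hq.symm
  have hπ1 : ∀ x, x + π x ∈ H' := by
    intro x
    have h1 := Submodule.sub_projection_mem hq.symm x
    rwa [sub_eq_add_neg, hneg] at h1
  have hπS : ∀ x ∈ S, π x ∈ S := by
    intro x hx
    have h1 := hπ1 x
    have h2 : π x = x + (x + π x) := by rw [← add_assoc, twoM, zero_add]
    rw [h2]
    exact hSadd _ hx _ ((hHmem _).mp h1).1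
  choose f hfF hf using h
  -- the cocycle
  let c : U → U → M := fun u v => π (f u v)
  have hcS : ∀ u v, c u v ∈ S := fun u v => hπS _ (hFS _ (hfF u v))
  have hc : ∀ u v, ℓ u + ℓ v + ℓ (u + v) + c u v ∈ Bb (r0 + ρ) := by
    intro u v
    have h1 := hB.add (hf u v) ((hHmem _).mp (hπ1 (f u v))).2
    have h2 : ℓ u + ℓ v + ℓ (u + v) + f u v + (f u v + π (f u v)) =
        ℓ u + ℓ v + ℓ (u + v) + c u v + (f u v + f u v) := by
      show _ = ℓ u + ℓ v + ℓ (u + v) + π (f u v) + (f u v + f u v)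
      abel
    rwa [h2, twoM, add_zero] at h1
  -- an element of the image of `π` in `Bb (8 ρ)` is zero
  have hkey : ∀ x ∈ S, π x ∈ Bb (8 * ρ) → π x = 0 := by
    intro x hx hxb
    have h1 : π x ∈ H' := (hHmem _).mpr ⟨hπS x hx, hgap _ (hπS x hx) hxb⟩
    have h2 : π x ∈ q := Submodule.projection_apply_mem hq.symm x
    exact Submodule.disjoint_def.mp hq.symm.disjoint _ h2 h1
  have hcoc : Cocycle c := by
    refine ⟨twoU, twoM, fun u v => ?_, fun u => ?_, fun u => ?_, fun u v w => ?_⟩
    · have h1 := hB.add (hc u v) (hc v u)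
      have h2 : ℓ u + ℓ v + ℓ (u + v) + c u v + (ℓ v + ℓ u + ℓ (v + u) + c v u) =
          c u v + c v u + ((ℓ u + ℓ u) + (ℓ v + ℓ v) + (ℓ (u + v) + ℓ (u + v))) := by
        rw [add_comm v u]
        abel
      rw [h2] at h1
      simp only [twoM, add_zero] at h1
      have h3 : c u v + c v u = π (f u v + f v u) := (map_add π _ _).symm
      rw [h3] at h1
      have h4 := hkey _ (hSadd _ (hFS _ (hfF u v)) _ (hFS _ (hfF v u))) (hB.mono (by omega) h1)
      rw [← h3] at h4
      calc c u v = c u v + (c u v + c v u) := by rw [h4, add_zero]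
        _ = c v u + (c u v + c u v) := by abel
        _ = c v u := by rw [twoM, add_zero]
    · have h1 := hc u 0
      rw [h0, add_zero, add_zero, twoM, zero_add] at h1
      exact hkey _ (hFS _ (hfF u 0)) (hB.mono (by omega) h1)
    · have h1 := hc u u
      rw [twoU, h0, add_zero, twoM, zero_add] at h1
      exact hkey _ (hFS _ (hfF u u)) (hB.mono (by omega) h1)
    · have h1 := hB.add (hB.add (hc u v) (hc (u + v) w)) (hB.add (hc v w) (hc u (v + w)))
      have h2 : ℓ u + ℓ v + ℓ (u + v) + c u v + (ℓ (u + v) + ℓ w + ℓ (u + v + w) + c (u + v) w) +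
          (ℓ v + ℓ w + ℓ (v + w) + c v w + (ℓ u + ℓ (v + w) + ℓ (u + (v + w)) + c u (v + w))) =
          (c u v + c (u + v) w) + (c v w + c u (v + w)) + ((ℓ u + ℓ u) + (ℓ v + ℓ v) + (ℓ w + ℓ w) +
          (ℓ (u + v) + ℓ (u + v)) + (ℓ (v + w) + ℓ (v + w)) + (ℓ (u + v + w) + ℓ (u + v + w))) := by
        rw [← add_assoc u v w]
        abel
      rw [h2] at h1
      simp only [twoM, add_zero] at h1
      have h3 : (c u v + c (u + v) w) + (c v w + c u (v + w)) =
          π ((f u v + f (u + v) w) + (f v w + f u (v + w))) := by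
        simp only [map_add]
        rfl
      rw [h3] at h1
      have h4 := hkey _ (hSadd _ (hSadd _ (hFS _ (hfF _ _)) _ (hFS _ (hfF _ _))) _
        (hSadd _ (hFS _ (hfF _ _)) _ (hFS _ (hfF _ _)))) (hB.mono (by omega) h1)
      rw [← h3] at h4
      calc c u v + c (u + v) w = c u v + c (u + v) w + ((c u v + c (u + v) w) + (c v w + c u (v + w))) := by
            rw [h4, add_zero]
        _ = c v w + c u (v + w) + ((c u v + c (u + v) w) + (c u v + c (u + v) w)) := by abel
        _ = c v w + c u (v + w) := by rw [twoM, add_zero]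
  let c' : U → U → Sg := fun u v => ⟨c u v, hcS u v⟩
  have hcoc' : Cocycle c' := by
    refine ⟨twoU, fun w => Subtype.ext (twoM _), fun u v => Subtype.ext (hcoc.symm u v),
      fun u => Subtype.ext (hcoc.zero u), fun u => Subtype.ext (hcoc.self u), fun u v w => Subtype.ext ?_⟩
    exact hcoc.coc u v w
  obtain ⟨g, hg⟩ := hcoc'.split
  have hg' : ∀ u v, c u v = (g u : M) + g v + g (u + v) := fun u v => congrArg Subtype.val (hg u v)
  refine ⟨S, fun u => (g u : M), hScard, hS0, hFS, hSadd, fun u => (g u).2, ?_, fun u v => ?_⟩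
  · have h1 := hg' 0 0
    rw [hcoc.zero, add_zero, twoM, zero_add] at h1
    exact h1.symm
  · have h1 := hc u v
    rw [hg'] at h1
    have h2 : ℓ u + ℓ v + ℓ (u + v) + ((g u : M) + g v + g (u + v)) =
        (ℓ u + (g u : M)) + (ℓ v + (g v : M)) + (ℓ (u + v) + (g (u + v) : M)) := by abel
    rw [h2] at h1
    exact hB.mono (by rw [rS]; omega) h1


end split

end Pool.Agent.helper53.MF9
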